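import Pool.Agent.Run7.h635.GEN.Stm
import Pool.Agent.Run7.h635.OD.Eis
import Pool.Agent.Run7.h600.OD.Theta
import Pool.Agent.Run7.h709.OD.Ind

/-!
# NEGB: an algebraic form of weight `-N` has a finite orbit under `SL(2, ℤ)`

`W(z) = θ(2z)²` and `V(z) = θ(2z+1)²` have finite orbits because `e = 2 W² - V²` and `Y = V²`
satisfy `4 e³ - 3 E₄ e - E₆ = 0` and `3 Y² = 4 e² - E₄`; `f` is a root of a polynomial whose
coefficients are homogeneous polynomials in `W` and `V`.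
-/

set_option autoImplicit false

open PowerSeries

namespace Run7.h106.GEN

open H809.OD H635.GEN Run7.h635.OD.Eis MatrixGroups UpperHalfPlane
open scoped ModularForm Manifold

/-! ### finitely many roots -/

/-- holomorphic functions on the upper half-plane -/
def Hol : Subring (ℍ → ℂ) where
  carrier := {f | MDiff f}
  mul_mem' {a b} ha hb := by
    have h : MDiff (a * b) := fun z => (ha z).mul (hb z)
    exact h
  one_mem' := by
    have h : MDiff (fun _ : ℍ => (1 : ℂ)) := mdifferentiable_const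
    exact h
  add_mem' {a b} ha hb := by
    have h : MDiff (a + b) := fun z => (ha z).add (hb z)
    exact h
  zero_mem' := by
    have h : MDiff (fun _ : ℍ => (0 : ℂ)) := mdifferentiable_const
    exact h
  neg_mem' {a} ha := by
    have h : MDiff (-a) := fun z => (ha z).neg
    exact h

lemma mem_Hol {f : ℍ → ℂ} : f ∈ Hol ↔ MDiff f := Iff.rfl

instance : IsDomain Hol := by
  have : NoZeroDivisors Hol := by
    constructor
    rintro ⟨a, ha⟩ ⟨b, hb⟩ hab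
    have h : a * b = 0 := congrArg Subtype.val hab
    rcases (UpperHalfPlane.mul_eq_zero_iff ha hb).1 h with h | h
    · left; exact Subtype.ext h
    · right; exact Subtype.ext h
  exact NoZeroDivisors.to_isDomain _

lemma finroots (n : ℕ) (c : ℕ → ℍ → ℂ) (hc : ∀ j, MDiff (c j)) (hn : ∃ j ≤ n, c j ≠ 0) :
    {x : ℍ → ℂ | MDiff x ∧ ∑ j ∈ Finset.range (n + 1), c j * x ^ j = 0}.Finite := by
  classical
  set P : Polynomial Hol := ∑ j ∈ Finset.range (n + 1),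
    Polynomial.C (⟨c j, hc j⟩ : Hol) * Polynomial.X ^ j with hPdef
  have hP : P ≠ 0 := by
    obtain ⟨j, hj, hcj⟩ := hn
    intro h0
    have h1 : P.coeff j = ⟨c j, hc j⟩ := by
      rw [hPdef, Polynomial.finsetSum_coeff, Finset.sum_eq_single j]
      · rw [Polynomial.coeff_C_mul, Polynomial.coeff_X_pow, if_pos rfl, mul_one]
      · intro i _ hij
        rw [Polynomial.coeff_C_mul, Polynomial.coeff_X_pow, if_neg (Ne.symm hij), mul_zero]
      · intro hj'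
        exact absurd (Finset.mem_range.2 (by omega)) hj'
    rw [h0, Polynomial.coeff_zero] at h1
    exact hcj (congrArg Subtype.val h1).symm
  refine ((Polynomial.finite_setOfPred_isRoot hP).image Subtype.val).subset ?_
  rintro x ⟨hx, hx0⟩
  refine ⟨⟨x, hx⟩, ?_, rfl⟩
  show Polynomial.eval _ P = 0
  apply Subtype.ext
  rw [hPdef, Polynomial.eval_finsetSum]
  simp only [Polynomial.eval_mul, Polynomial.eval_C, Polynomial.eval_pow, Polynomial.eval_X]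
  rw [AddSubmonoidClass.coe_finsetSum]
  exact hx0

lemma orb {α : Type*} (D : SL(2, ℤ) → α) (hD : (Set.range D).Finite) (n : ℕ)
    (c : α → ℕ → ℍ → ℂ) (x : SL(2, ℤ) → ℍ → ℂ)
    (hc : ∀ γ j, MDiff (c (D γ) j)) (hn : ∀ γ, ∃ j ≤ n, c (D γ) j ≠ 0)
    (hx : ∀ γ, MDiff (x γ))
    (h0 : ∀ γ, ∑ j ∈ Finset.range (n + 1), c (D γ) j * x γ ^ j = 0) : (Set.range x).Finite := by
  have hsub : Set.range x ⊆ ⋃ d ∈ Set.range D,
      {y : ℍ → ℂ | MDiff y ∧ ∑ j ∈ Finset.range (n + 1), c d j * y ^ j = 0} := by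
    rintro _ ⟨γ, rfl⟩
    exact Set.mem_biUnion (Set.mem_range_self γ) ⟨hx γ, h0 γ⟩
  refine Set.Finite.subset (hD.biUnion ?_) hsub
  rintro _ ⟨γ, rfl⟩
  exact finroots n _ (hc γ) (hn γ)

/-! ### the theta functions -/

/-- `W(z) = θ(2z)²`, the value of `w` -/
noncomputable def W (z : ℍ) : ℂ := jacobiTheta (2 * z) ^ 2
/-- `V(z) = θ(2z+1)²`, the value of `ng w` -/
noncomputable def V (z : ℍ) : ℂ := jacobiTheta (2 * z + 1) ^ 2
/-- `Y = V²` -/
noncomputable def Y (z : ℍ) : ℂ := V z ^ 2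
/-- `e = 2 W² - V²` -/
noncomputable def ee (z : ℍ) : ℂ := 2 * W z ^ 2 - V z ^ 2
/-- `E₄` -/
noncomputable def G4 (z : ℍ) : ℂ := GG z
/-- `E₆` -/
noncomputable def G6 (z : ℍ) : ℂ := HH z

lemma rel (z : ℍ) : G4 z = 4 * ee z ^ 2 - 3 * Y z ^ 2 ∧
    G6 z = ee z * (9 * Y z ^ 2 - 8 * ee z ^ 2) := by
  have h1 := ag1_ev z.im_pos
  have h2 := ag2_ev z.im_pos
  set a := jacobiTheta (z : ℂ) with ha
  set b := jacobiTheta ((z : ℂ) + 1) with hb
  have hW : W z = jacobiTheta (2 * z) ^ 2 := rfl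
  have hV : V z = jacobiTheta (2 * z + 1) ^ 2 := rfl
  rw [← hW] at h1
  rw [← hV] at h2
  have e1 : bb z = a ^ 4 := rfl
  have e2 : cc z = b ^ 4 := rfl
  have hW2 : W z = (a ^ 2 + b ^ 2) / 2 := by rw [h1]; ring
  constructor
  · unfold G4 GG ee Y
    rw [e1, e2, hW2, ← h2]; ring
  · unfold G6 HH ee Y
    rw [e1, e2, hW2, ← h2]; ring

lemma mdiff_theta (a b : ℂ) (ha : ∀ z : ℍ, 0 < (a * z + b).im) :
    MDiff (fun z : ℍ => jacobiTheta (a * z + b)) := by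
  rw [UpperHalfPlane.mdifferentiable_iff]
  have h : ∀ z : ℂ, 0 < z.im → DifferentiableAt ℂ (fun z => jacobiTheta (a * z + b)) z := by
    intro z hz
    have h1 := differentiableAt_jacobiTheta (ha ⟨z, hz⟩)
    exact h1.comp z (((differentiableAt_id).const_mul a).add_const b)
  refine .congr (fun z hz ↦ (h z hz).differentiableWithinAt) fun z hz ↦ ?_
  simp [ofComplex_apply_of_im_pos hz]

lemma W_hol : W ∈ Hol := by
  have h := mdiff_theta 2 0 (fun z => by simpa using z.im_pos)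
  have h2 : (fun z : ℍ => jacobiTheta (2 * z + 0)) ^ 2 ∈ Hol := Hol.pow_mem h 2
  have e : (fun z : ℍ => jacobiTheta (2 * (z : ℂ) + 0)) ^ 2 = W := by
    funext z
    simp [W]
  rwa [e] at h2

lemma V_hol : V ∈ Hol := by
  have h := mdiff_theta 2 1 (fun z => by simpa using z.im_pos)
  have h2 : (fun z : ℍ => jacobiTheta (2 * z + 1)) ^ 2 ∈ Hol := Hol.pow_mem h 2
  exact h2

lemma const_hol (c : ℂ) : (fun _ : ℍ => c) ∈ Hol := by
  have h : MDiff (fun _ : ℍ => c) := mdifferentiable_const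
  exact h

lemma Y_hol : Y ∈ Hol := Hol.pow_mem V_hol 2

lemma ee_hol : ee ∈ Hol := by
  have := Hol.sub_mem (Hol.mul_mem (const_hol 2) (Hol.pow_mem W_hol 2)) (Hol.pow_mem V_hol 2)
  exact this

lemma G4_hol : G4 ∈ Hol := by
  have := Hol.sub_mem (Hol.mul_mem (const_hol 4) (Hol.pow_mem ee_hol 2))
    (Hol.mul_mem (const_hol 3) (Hol.pow_mem Y_hol 2))
  have e : G4 = (fun _ : ℍ => (4 : ℂ)) * ee ^ 2 - (fun _ : ℍ => (3 : ℂ)) * Y ^ 2 := by
    funext z; exact (rel z).1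
  rw [e]; exact this

lemma G6_hol : G6 ∈ Hol := by
  have := Hol.mul_mem ee_hol (Hol.sub_mem (Hol.mul_mem (const_hol 9) (Hol.pow_mem Y_hol 2))
    (Hol.mul_mem (const_hol 8) (Hol.pow_mem ee_hol 2)))
  have e : G6 = ee * ((fun _ : ℍ => (9 : ℂ)) * Y ^ 2 - (fun _ : ℍ => (8 : ℂ)) * ee ^ 2) := by
    funext z; exact (rel z).2
  rw [e]; exact this

lemma G4_slash (γ : SL(2, ℤ)) : G4 ∣[(4 : ℤ)] γ = G4 :=
  SlashInvariantForm.slash_action_generators_SL2Z (slash_S 4 fun _ hz => GG_S hz)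
    (slash_T 4 GG_T) γ

lemma G6_slash (γ : SL(2, ℤ)) : G6 ∣[(6 : ℤ)] γ = G6 :=
  SlashInvariantForm.slash_action_generators_SL2Z (slash_S 6 fun _ hz => HH_S hz)
    (slash_T 6 HH_T) γ

lemma slash_hol {f : ℍ → ℂ} (hf : f ∈ Hol) (k : ℤ) (γ : SL(2, ℤ)) : f ∣[k] γ ∈ Hol := by
  have h : MDiff (f ∣[k] (γ : GL (Fin 2) ℝ)) := MDifferentiable.slash hf k _
  exact h

/-- `1 / (c z + d)` -/
noncomputable def tt (γ : SL(2, ℤ)) (z : ℍ) : ℂ := (denom γ z)⁻¹

lemma tt_ne (γ : SL(2, ℤ)) (z : ℍ) : tt γ z ≠ 0 := inv_ne_zero (denom_ne_zero γ z)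

lemma slash_nat (f : ℍ → ℂ) (k : ℕ) (γ : SL(2, ℤ)) (z : ℍ) :
    (f ∣[(k : ℤ)] γ) z = f (γ • z) * tt γ z ^ k := by
  rw [ModularForm.SL_slash_apply, tt, zpow_neg, zpow_natCast, inv_pow]

lemma slash_neg (f : ℍ → ℂ) (k : ℕ) (γ : SL(2, ℤ)) (z : ℍ) :
    (f ∣[(-(k : ℤ))] γ) z = f (γ • z) * (tt γ z ^ k)⁻¹ := by
  rw [ModularForm.SL_slash_apply, tt, neg_neg, zpow_natCast, inv_pow, inv_inv]

lemma ee_fin : (Set.range fun γ : SL(2, ℤ) => ee ∣[(2 : ℤ)] γ).Finite := by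
  refine orb (fun _ => ()) (Set.toFinite _) 3
    (fun _ j => match j with
      | 0 => -G6
      | 1 => -((fun _ : ℍ => (3 : ℂ)) * G4)
      | 2 => 0
      | _ + 3 => (fun _ : ℍ => (4 : ℂ))) _ ?_ ?_ ?_ ?_
  · intro _ j
    match j with
    | 0 => exact Hol.neg_mem G6_hol
    | 1 => exact Hol.neg_mem (Hol.mul_mem (const_hol 3) G4_hol)
    | 2 => exact Hol.zero_mem
    | _ + 3 => exact const_hol 4
  · intro _
    refine ⟨3, le_rfl, ?_⟩
    intro h
    have h' : (4 : ℂ) = 0 := congrFun h I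
    norm_num at h'
  · intro γ
    exact slash_hol ee_hol 2 γ
  · intro γ
    funext z
    have h4 := congrFun (G4_slash γ) z
    have h6 := congrFun (G6_slash γ) z
    rw [show (4 : ℤ) = ((4 : ℕ) : ℤ) from rfl, slash_nat] at h4
    rw [show (6 : ℤ) = ((6 : ℕ) : ℤ) from rfl, slash_nat] at h6
    have he : (ee ∣[(2 : ℤ)] γ) z = ee (γ • z) * tt γ z ^ 2 := slash_nat ee 2 γ z
    have key : -(G6 z) + -(3 * G4 z) * (ee ∣[(2 : ℤ)] γ) z + 4 * (ee ∣[(2 : ℤ)] γ) z ^ 3 = 0 := by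
      rw [he, ← h4, ← h6, (rel (γ • z)).1, (rel (γ • z)).2]; ring
    rw [Finset.sum_range_succ, Finset.sum_range_succ, Finset.sum_range_succ,
      Finset.sum_range_succ, Finset.sum_range_zero]
    show (0 : ℂ) + -(G6 z) * (ee ∣[(2 : ℤ)] γ) z ^ 0 + -(3 * G4 z) * (ee ∣[(2 : ℤ)] γ) z ^ 1 +
      0 * (ee ∣[(2 : ℤ)] γ) z ^ 2 + 4 * (ee ∣[(2 : ℤ)] γ) z ^ 3 = 0
    linear_combination key

lemma Y_fin : (Set.range fun γ : SL(2, ℤ) => (ee ∣[(2 : ℤ)] γ, Y ∣[(2 : ℤ)] γ)).Finite := by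
  have h1 : (Set.range fun γ : SL(2, ℤ) => Y ∣[(2 : ℤ)] γ).Finite := by
    refine orb (fun γ => ee ∣[(2 : ℤ)] γ) ee_fin 2
      (fun e j => match j with
        | 0 => G4 - (fun _ : ℍ => (4 : ℂ)) * e ^ 2
        | 1 => 0
        | _ + 2 => (fun _ : ℍ => (3 : ℂ))) _ ?_ ?_ ?_ ?_
    · intro γ j
      match j with
      | 0 => exact Hol.sub_mem G4_hol
              (Hol.mul_mem (const_hol 4) (Hol.pow_mem (slash_hol ee_hol 2 γ) 2))
      | 1 => exact Hol.zero_mem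
      | _ + 2 => exact const_hol 3
    · intro _
      refine ⟨2, le_rfl, ?_⟩
      intro h
      have h' : (3 : ℂ) = 0 := congrFun h I
      norm_num at h'
    · intro γ
      exact slash_hol Y_hol 2 γ
    · intro γ
      funext z
      have h4 := congrFun (G4_slash γ) z
      rw [show (4 : ℤ) = ((4 : ℕ) : ℤ) from rfl, slash_nat] at h4
      have he : (ee ∣[(2 : ℤ)] γ) z = ee (γ • z) * tt γ z ^ 2 := slash_nat ee 2 γ z
      have hy : (Y ∣[(2 : ℤ)] γ) z = Y (γ • z) * tt γ z ^ 2 := slash_nat Y 2 γ z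
      have key : (G4 z - 4 * (ee ∣[(2 : ℤ)] γ) z ^ 2) + 3 * (Y ∣[(2 : ℤ)] γ) z ^ 2 = 0 := by
        rw [he, hy, ← h4, (rel (γ • z)).1]; ring
      rw [Finset.sum_range_succ, Finset.sum_range_succ, Finset.sum_range_succ,
        Finset.sum_range_zero]
      show (0 : ℂ) + (G4 z - 4 * (ee ∣[(2 : ℤ)] γ) z ^ 2) * (Y ∣[(2 : ℤ)] γ) z ^ 0 +
        0 * (Y ∣[(2 : ℤ)] γ) z ^ 1 + 3 * (Y ∣[(2 : ℤ)] γ) z ^ 2 = 0
      linear_combination key
  refine (ee_fin.prod h1).subset ?_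
  rintro _ ⟨γ, rfl⟩
  exact ⟨⟨γ, rfl⟩, ⟨γ, rfl⟩⟩

lemma WV_fin : (Set.range fun γ : SL(2, ℤ) => (W ∣[(1 : ℤ)] γ, V ∣[(1 : ℤ)] γ)).Finite := by
  have h1 : (Set.range fun γ : SL(2, ℤ) => W ∣[(1 : ℤ)] γ).Finite := by
    refine orb (fun γ => (ee ∣[(2 : ℤ)] γ, Y ∣[(2 : ℤ)] γ)) Y_fin 2
      (fun d j => match j with
        | 0 => -(d.1 + d.2)
        | 1 => 0
        | _ + 2 => (fun _ : ℍ => (2 : ℂ))) _ ?_ ?_ ?_ ?_
    · intro γ j
      match j with
      | 0 => exact Hol.neg_mem (Hol.add_mem (slash_hol ee_hol 2 γ) (slash_hol Y_hol 2 γ))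
      | 1 => exact Hol.zero_mem
      | _ + 2 => exact const_hol 2
    · intro _
      refine ⟨2, le_rfl, ?_⟩
      intro h
      have h' : (2 : ℂ) = 0 := congrFun h I
      norm_num at h'
    · intro γ
      exact slash_hol W_hol 1 γ
    · intro γ
      funext z
      have he : (ee ∣[(2 : ℤ)] γ) z = ee (γ • z) * tt γ z ^ 2 := slash_nat ee 2 γ z
      have hy : (Y ∣[(2 : ℤ)] γ) z = Y (γ • z) * tt γ z ^ 2 := slash_nat Y 2 γ z
      have hw : (W ∣[(1 : ℤ)] γ) z = W (γ • z) * tt γ z ^ 1 := slash_nat W 1 γ z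
      have key : -((ee ∣[(2 : ℤ)] γ) z + (Y ∣[(2 : ℤ)] γ) z) + 2 * (W ∣[(1 : ℤ)] γ) z ^ 2 = 0 := by
        rw [he, hy, hw]; unfold ee Y; ring
      rw [Finset.sum_range_succ, Finset.sum_range_succ, Finset.sum_range_succ,
        Finset.sum_range_zero]
      show (0 : ℂ) + -((ee ∣[(2 : ℤ)] γ) z + (Y ∣[(2 : ℤ)] γ) z) * (W ∣[(1 : ℤ)] γ) z ^ 0 +
        0 * (W ∣[(1 : ℤ)] γ) z ^ 1 + 2 * (W ∣[(1 : ℤ)] γ) z ^ 2 = 0
      linear_combination key
  have h2 : (Set.range fun γ : SL(2, ℤ) => V ∣[(1 : ℤ)] γ).Finite := by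
    refine orb (fun γ => (ee ∣[(2 : ℤ)] γ, Y ∣[(2 : ℤ)] γ)) Y_fin 2
      (fun d j => match j with
        | 0 => -d.2
        | 1 => 0
        | _ + 2 => (fun _ : ℍ => (1 : ℂ))) _ ?_ ?_ ?_ ?_
    · intro γ j
      match j with
      | 0 => exact Hol.neg_mem (slash_hol Y_hol 2 γ)
      | 1 => exact Hol.zero_mem
      | _ + 2 => exact const_hol 1
    · intro _
      refine ⟨2, le_rfl, ?_⟩
      intro h
      have h' : (1 : ℂ) = 0 := congrFun h I
      norm_num at h'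
    · intro γ
      exact slash_hol V_hol 1 γ
    · intro γ
      funext z
      have hy : (Y ∣[(2 : ℤ)] γ) z = Y (γ • z) * tt γ z ^ 2 := slash_nat Y 2 γ z
      have hw : (V ∣[(1 : ℤ)] γ) z = V (γ • z) * tt γ z ^ 1 := slash_nat V 1 γ z
      have key : -((Y ∣[(2 : ℤ)] γ) z) + (V ∣[(1 : ℤ)] γ) z ^ 2 = 0 := by
        rw [hy, hw]; unfold Y; ring
      rw [Finset.sum_range_succ, Finset.sum_range_succ, Finset.sum_range_succ,
        Finset.sum_range_zero]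
      show (0 : ℂ) + -((Y ∣[(2 : ℤ)] γ) z) * (V ∣[(1 : ℤ)] γ) z ^ 0 +
        0 * (V ∣[(1 : ℤ)] γ) z ^ 1 + 1 * (V ∣[(1 : ℤ)] γ) z ^ 2 = 0
      linear_combination key
  refine (h1.prod h2).subset ?_
  rintro _ ⟨γ, rfl⟩
  exact ⟨⟨γ, rfl⟩, ⟨γ, rfl⟩⟩

/-! ### homogenization -/

/-- `a^s P((a - b) / (8 a))` -/
noncomputable def hom (P : Polynomial ℚ) (s : ℕ) (a b : ℂ) : ℂ :=
  ∑ i ∈ Finset.range (s + 1), ((P.coeff i : ℚ) : ℂ) * ((1 / 8 : ℂ) * (a - b)) ^ i * a ^ (s - i)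

lemma hom_smul (P : Polynomial ℚ) (s : ℕ) (a b t : ℂ) :
    hom P s (a * t) (b * t) = t ^ s * hom P s a b := by
  unfold hom
  rw [Finset.mul_sum]
  refine Finset.sum_congr rfl fun i hi => ?_
  have hi' : i ≤ s := by simpa [Nat.lt_succ_iff] using hi
  have e : t ^ s = t ^ i * t ^ (s - i) := by rw [← pow_add, Nat.add_sub_cancel' hi']
  rw [e, show (1 / 8 : ℂ) * (a * t - b * t) = (1 / 8 * (a - b)) * t by ring, mul_pow, mul_pow]
  ring

/-- the same in power series -/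
noncomputable def homS (P : Polynomial ℚ) (s : ℕ) : ℚ⟦X⟧ :=
  ∑ i ∈ Finset.range (s + 1), C (P.coeff i) * (C (1 / 8 : ℚ) * (w - ng w)) ^ i * w ^ (s - i)

lemma w_mul_u : w * u = C (1 / 8 : ℚ) * (w - ng w) := by
  have h := Run7.h709.OD.w_mul_wi theta_holds
  rw [u]
  calc w * (C (1 / 8 : ℚ) * (w - ng w) * wi) = (w * wi) * (C (1 / 8 : ℚ) * (w - ng w)) := by ring
    _ = _ := by rw [h, one_mul]

lemma homS_eq (P : Polynomial ℚ) (s : ℕ) (hP : P.natDegree ≤ s) :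
    homS P s = w ^ s * Polynomial.aeval u P := by
  unfold homS
  rw [Polynomial.aeval_eq_sum_range' (Nat.lt_succ_of_le hP), Finset.mul_sum]
  refine Finset.sum_congr rfl fun i hi => ?_
  have hi' : i ≤ s := by simpa [Nat.lt_succ_iff] using hi
  have e : w ^ s = w ^ i * w ^ (s - i) := by rw [← pow_add, Nat.add_sub_cancel' hi']
  rw [← w_mul_u, mul_pow, e, PowerSeries.smul_eq_C_mul]
  ring

lemma Ev_C (c : ℚ) (x : ℂ) : Ev (C c) x (c : ℂ) := by
  unfold Ev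
  convert hasSum_ite_eq (0 : ℕ) (c : ℂ) using 1
  funext n
  rw [coeff_C]
  split_ifs with h
  · subst h; simp
  · simp

lemma Ev_sum {ι : Type*} (s : Finset ι) (F : ι → ℚ⟦X⟧) (x : ℂ) (a : ι → ℂ)
    (h : ∀ i ∈ s, Ev (F i) x (a i)) : Ev (∑ i ∈ s, F i) x (∑ i ∈ s, a i) := by
  classical
  induction s using Finset.induction_on with
  | empty =>
    have := Ev_C 0 x
    simpa using this
  | insert i s hi ih =>
    rw [Finset.sum_insert hi, Finset.sum_insert hi]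
    exact (h i (Finset.mem_insert_self i s)).add
      (ih fun j hj => h j (Finset.mem_insert_of_mem hj))

lemma Ev_W (z : ℍ) : Ev w (Function.Periodic.qParam 1 (z : ℂ)) (W z) := by
  have hz : 0 < (2 * (z : ℂ)).im := by simpa using z.im_pos
  rw [qp_eq, ← nm_two, w]
  exact (Ev_phi hz).pow 2

lemma Ev_V (z : ℍ) : Ev (ng w) (Function.Periodic.qParam 1 (z : ℂ)) (V z) := by
  have hz : 0 < (2 * (z : ℂ)).im := by simpa using z.im_pos
  rw [qp_eq, ← nm_two, w, map_pow]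
  exact (Ev_ng_phi hz).pow 2

lemma Ev_hom (P : Polynomial ℚ) (s : ℕ) (z : ℍ) :
    Ev (homS P s) (Function.Periodic.qParam 1 (z : ℂ)) (hom P s (W z) (V z)) := by
  unfold homS hom
  refine Ev_sum _ _ _ _ fun i _ => ?_
  have h8 := (Ev_C (1 / 8) (Function.Periodic.qParam 1 (z : ℂ))).mul ((Ev_W z).sub (Ev_V z))
  have h := ((Ev_C (P.coeff i) (Function.Periodic.qParam 1 (z : ℂ))).mul (h8.pow i)).mul
    ((Ev_W z).pow (s - i))
  have e : (((1 / 8 : ℚ)) : ℂ) = 1 / 8 := by push_cast; rfl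
  rw [e] at h
  exact h

lemma cusp_zero : cuspFunction 1 (0 : ℍ → ℂ) = 0 := by
  simpa [cuspFunction, Function.Periodic.cuspFunction] using!
    (tendsto_const_nhds.mono_left nhdsWithin_le_nhds).limUnder_eq

lemma coeff_eq_zero (c : ℕ → ℂ) (h : ∀ τ : ℍ,
    HasSum (fun m : ℕ => c m • Function.Periodic.qParam 1 (τ : ℂ) ^ m) ((0 : ℍ → ℂ) τ)) (n : ℕ) :
    c n = 0 := by
  have hana : AnalyticAt ℂ (cuspFunction 1 (0 : ℍ → ℂ)) 0 := by
    rw [cusp_zero]; exact analyticAt_const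
  have h1 := (UpperHalfPlane.hasFPowerSeriesOnBall_cuspFunction (f := (0 : ℍ → ℂ)) one_pos
    hana h).hasFPowerSeriesAt
  rw [cusp_zero] at h1
  have h3 := congrArg (fun p => FormalMultilinearSeries.coeff p n) h1.eq_zero
  rw [FormalMultilinearSeries.coeff_ofScalars] at h3
  rw [h3]; rfl

/-- a power series vanishing on the disc is zero -/
lemma zero_of_Ev (F : ℚ⟦X⟧) (h : ∀ z : ℍ, Ev F (Function.Periodic.qParam 1 (z : ℂ)) 0) :
    F = 0 := by
  have h2 : ∀ τ : ℍ, HasSum (fun m : ℕ => ((coeff m F : ℚ) : ℂ) •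
      Function.Periodic.qParam 1 (τ : ℂ) ^ m) ((0 : ℍ → ℂ) τ) := by
    intro τ
    have := h τ
    unfold Ev at this
    simp only [smul_eq_mul, Pi.zero_apply]
    exact this
  ext n
  have h3 := coeff_eq_zero _ h2 n
  rw [map_zero]
  exact Rat.cast_eq_zero.1 h3

/-! ### the theorem -/

theorem negb : S_NegB := by
  intro N h f hG hf hfd
  obtain ⟨Φ, hΦ, hev⟩ := hG
  set s : ℕ := Φ.support.sup (fun j => (Φ.coeff j).natDegree) with hs
  have hdeg : ∀ j, (Φ.coeff j).natDegree ≤ s := by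
    intro j
    by_cases hj : Φ.coeff j = 0
    · rw [hj]; simp
    · exact Finset.le_sup (f := fun j => (Φ.coeff j).natDegree) (Polynomial.mem_support_iff.2 hj)
  -- the relation on the upper half-plane
  have hrel : ∀ z : ℍ, ∑ j ∈ Finset.range (Φ.natDegree + 1),
      hom (Φ.coeff j) s (W z) (V z) * W z ^ (N * j) * f z ^ j = 0 := by
    intro z
    have h1 : Ev (∑ j ∈ Finset.range (Φ.natDegree + 1), homS (Φ.coeff j) s * w ^ (N * j) * h ^ j)
        (Function.Periodic.qParam 1 (z : ℂ)) (∑ j ∈ Finset.range (Φ.natDegree + 1),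
      hom (Φ.coeff j) s (W z) (V z) * W z ^ (N * j) * f z ^ j) :=
      Ev_sum _ _ _ _ fun j _ => ((Ev_hom _ s z).mul ((Ev_W z).pow _)).mul (Ev.pow (hf z) j)
    have h2 : ∑ j ∈ Finset.range (Φ.natDegree + 1), homS (Φ.coeff j) s * w ^ (N * j) * h ^ j = 0 := by
      have h3 : ev2 (w ^ N * h) Φ = ∑ j ∈ Finset.range (Φ.natDegree + 1),
          Polynomial.aeval u (Φ.coeff j) * (w ^ N * h) ^ j := by
        unfold ev2
        rw [Polynomial.coe_eval₂RingHom, Polynomial.eval₂_eq_sum_range]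
        rfl
      have h4 : ∑ j ∈ Finset.range (Φ.natDegree + 1), homS (Φ.coeff j) s * w ^ (N * j) * h ^ j =
          w ^ s * ev2 (w ^ N * h) Φ := by
        rw [h3, Finset.mul_sum]
        refine Finset.sum_congr rfl fun j _ => ?_
        rw [homS_eq _ _ (hdeg j), mul_pow, ← pow_mul]
        ring
      rw [h4, hev, mul_zero]
    rw [h2] at h1
    exact h1.uniq (by simpa using Ev_C 0 (Function.Periodic.qParam 1 (z : ℂ)))
  -- nonvanishing
  obtain ⟨j0, hj0, z0, hz0⟩ : ∃ j ≤ Φ.natDegree, ∃ z : ℍ,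
      hom (Φ.coeff j) s (W z) (V z) * W z ^ (N * j) ≠ 0 := by
    refine ⟨Φ.natDegree, le_rfl, ?_⟩
    by_contra hcon
    push Not at hcon
    have h1 : homS (Φ.coeff Φ.natDegree) s * w ^ (N * Φ.natDegree) = 0 := by
      refine zero_of_Ev _ fun z => ?_
      have := (Ev_hom (Φ.coeff Φ.natDegree) s z).mul ((Ev_W z).pow (N * Φ.natDegree))
      rwa [hcon z] at this
    rw [homS_eq _ _ (hdeg _)] at h1
    have hw : w ≠ 0 := Run7.h709.OD.w_ne theta_holds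
    have hlc : Polynomial.aeval u (Φ.coeff Φ.natDegree) ≠ 0 :=
      Run7.h709.OD.ph_ne theta_holds _ (by rwa [Polynomial.coeff_natDegree, Polynomial.leadingCoeff_ne_zero])
    exact mul_ne_zero (mul_ne_zero (pow_ne_zero _ hw) hlc) (pow_ne_zero _ hw) h1
  refine orb (fun γ => (W ∣[(1 : ℤ)] γ, V ∣[(1 : ℤ)] γ)) WV_fin Φ.natDegree
    (fun d j => fun z => hom (Φ.coeff j) s (d.1 z) (d.2 z) * d.1 z ^ (N * j)) _ ?_ ?_ ?_ ?_
  · intro γ j
    have hW := slash_hol W_hol 1 γ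
    have hV := slash_hol V_hol 1 γ
    have hh : ∑ i ∈ Finset.range (s + 1), (fun _ : ℍ => (((Φ.coeff j).coeff i : ℚ) : ℂ)) *
        ((fun _ : ℍ => (1 / 8 : ℂ)) * (W ∣[(1 : ℤ)] γ - V ∣[(1 : ℤ)] γ)) ^ i *
        (W ∣[(1 : ℤ)] γ) ^ (s - i) ∈ Hol :=
      Hol.sum_mem fun i _ => Hol.mul_mem (Hol.mul_mem (const_hol _)
        (Hol.pow_mem (Hol.mul_mem (const_hol _) (Hol.sub_mem hW hV)) i)) (Hol.pow_mem hW _)
    have h2 := Hol.mul_mem hh (Hol.pow_mem hW (N * j))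
    rw [mem_Hol] at h2
    convert h2 using 1
    funext z
    simp only [Pi.mul_apply, Finset.sum_apply, Pi.pow_apply, Pi.sub_apply]
    rfl
  · intro γ
    refine ⟨j0, hj0, ?_⟩
    intro hcon
    have h1 := congrFun hcon (γ⁻¹ • z0)
    apply hz0
    have hw : (W ∣[(1 : ℤ)] γ) (γ⁻¹ • z0) = W (γ • γ⁻¹ • z0) * tt γ (γ⁻¹ • z0) ^ 1 :=
      slash_nat W 1 γ _
    have hv : (V ∣[(1 : ℤ)] γ) (γ⁻¹ • z0) = V (γ • γ⁻¹ • z0) * tt γ (γ⁻¹ • z0) ^ 1 :=
      slash_nat V 1 γ _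
    rw [smul_inv_smul, pow_one] at hw hv
    simp only [hw, hv, Pi.zero_apply, hom_smul] at h1
    have ht := tt_ne γ (γ⁻¹ • z0)
    rw [mul_pow] at h1
    have h2 : tt γ (γ⁻¹ • z0) ^ s * tt γ (γ⁻¹ • z0) ^ (N * j0) *
        (hom (Φ.coeff j0) s (W z0) (V z0) * W z0 ^ (N * j0)) = 0 := by
      rw [← h1]; ring
    exact (mul_eq_zero.1 h2).resolve_left (mul_ne_zero (pow_ne_zero _ ht) (pow_ne_zero _ ht))
  · intro γ
    exact slash_hol hfd _ γ
  · intro γ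
    funext z
    have hw : (W ∣[(1 : ℤ)] γ) z = W (γ • z) * tt γ z ^ 1 := slash_nat W 1 γ z
    have hv : (V ∣[(1 : ℤ)] γ) z = V (γ • z) * tt γ z ^ 1 := slash_nat V 1 γ z
    have hff : (f ∣[(-(N : ℤ))] γ) z = f (γ • z) * (tt γ z ^ N)⁻¹ := slash_neg f N γ z
    have ht := tt_ne γ z
    rw [Finset.sum_apply, Pi.zero_apply]
    have e : ∀ j ∈ Finset.range (Φ.natDegree + 1),
        ((fun z => hom (Φ.coeff j) s ((W ∣[(1 : ℤ)] γ) z) ((V ∣[(1 : ℤ)] γ) z) *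
          (W ∣[(1 : ℤ)] γ) z ^ (N * j)) * (f ∣[(-(N : ℤ))] γ) ^ j) z =
        tt γ z ^ s * (hom (Φ.coeff j) s (W (γ • z)) (V (γ • z)) * W (γ • z) ^ (N * j) *
          f (γ • z) ^ j) := by
      intro j _
      rw [Pi.mul_apply, Pi.pow_apply, hw, hv, hff, pow_one, hom_smul, mul_pow, mul_pow, inv_pow,
        ← pow_mul]
      field_simp
    rw [Finset.sum_congr rfl e, ← Finset.mul_sum, hrel, mul_zero]

end Run7.h106.GEN
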